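import Mathlib
import Pool.Agent.H81.NC.SepDual
import Pool.Agent.H75.Four.FOther
import Pool.Agent.H75.TwoArm.Strand
import Pool.Agent.H75.Perc.Orbit

set_option autoImplicit false
open Finset

/-! # A cluster and a dual cluster share at most one interface

Two corners are on the same interface loop if and only if their vertices are joined by open edges and
their faces are joined by closed dual edges. -/

namespace Pool.Agent.H69.Q1

open Pool.Agent.H75.Perc Pool.Agent.H75.TwoArm Pool.Agent.H75.Four
open Pool.Agent.H75.TwoArm.StrandAux hiding vx_nxC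

lemma odd_lab (z : ℤ × ℤ) : ((lab z).1 + (lab z).2) % 2 = 1 := by
  rcases ty_cases z with ⟨-, h1, h2, h3, -, -⟩ | ⟨-, h1, h2, h3, -, -⟩ | ⟨-, h1, h2, h3, -, -⟩ |
    ⟨-, h1, h2, h3, -, -⟩ <;> rw [h3] <;> simp only <;> omega

lemma eq_zu_or_zv {z e : ℤ × ℤ} (he : (e.1 + e.2) % 2 = 1) (h : lab z = e) : z = zu e ∨ z = zv e := by
  obtain ⟨ho, -, hu, -, -, -⟩ := opc_zu he
  rw [← hu] at h
  rcases lab_eq_iff.1 h with h1 | h1
  · exact Or.inl h1
  · right; rw [h1, ho]

/-- the four corners at a vertex -/
def four (v : ℤ × ℤ) : Finset (ℤ × ℤ) :=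
  {(2 * v.1, 2 * v.2), (2 * v.1 + 1, 2 * v.2), (2 * v.1, 2 * v.2 + 1), (2 * v.1 + 1, 2 * v.2 + 1)}

lemma mem_four {v z : ℤ × ℤ} : z ∈ four v ↔ vx z = v := by
  unfold four vx
  simp only [mem_insert, mem_singleton, Prod.ext_iff]
  omega

/-- a finite set of corners closed under `nx w` -/
lemma exists_closed (w : Finset (ℤ × ℤ)) (c : ℤ × ℤ) :
    ∃ S : Finset (ℤ × ℤ), c ∈ S ∧ ∀ z ∈ S, nx w z ∈ S := by
  classical
  set T : Finset (ℤ × ℤ) := insert (vx c) (w.image eu ∪ w.image ev) with hT
  refine ⟨T.biUnion four, ?_, ?_⟩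
  · rw [mem_biUnion]
    exact ⟨vx c, by rw [hT]; exact mem_insert_self _ _, mem_four.2 rfl⟩
  · intro z hz
    rw [mem_biUnion] at hz ⊢
    obtain ⟨v, hv, hz⟩ := hz
    rw [mem_four] at hz
    subst hz
    by_cases hl : lab z ∈ w
    · have h1 : nx w z = nxO z := by unfold nx; rw [if_pos hl]
      refine ⟨vx (nxO z), ?_, by rw [h1]; exact mem_four.2 rfl⟩
      have he := odd_lab z
      obtain ⟨ho, ho', -, -, hvu, hvv⟩ := opc_zu he
      rw [(nxO_opc z).1, hT, mem_insert, mem_union, mem_image, mem_image]
      rcases eq_zu_or_zv he rfl with h2 | h2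
      · right; right
        refine ⟨lab z, hl, ?_⟩
        have h3 : opc z = zv (lab z) := by rw [← ho, ← h2]
        rw [h3, hvv]
      · right; left
        refine ⟨lab z, hl, ?_⟩
        have h3 : opc z = zu (lab z) := by rw [← ho', ← h2]
        rw [h3, hvu]
    · have h1 : nx w z = nxC z := by unfold nx; rw [if_neg hl]
      exact ⟨vx z, hv, by rw [h1, mem_four, vx_nxC]⟩

lemma exists_orb_nx (w : Finset (ℤ × ℤ)) (c : ℤ × ℤ) : ∃ L, Orb (nx w) c L := by
  obtain ⟨S, h1, h2⟩ := exists_closed w c
  exact exists_orb (nx w) (nx_injective w) S h2 c h1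

lemma inOrb_symm {w : Finset (ℤ × ℤ)} {c z : ℤ × ℤ} (h : InOrb (nx w) c z) :
    InOrb (nx w) z c := by
  obtain ⟨L, hL⟩ := exists_orb_nx w c
  obtain ⟨i, hi, rfl⟩ := (hL.inOrb_iff z).1 h
  refine ⟨L - i, ?_⟩
  rw [← Function.iterate_add_apply, Nat.sub_add_cancel hi.le, hL.per]

lemma inOrb_trans {w : Finset (ℤ × ℤ)} {c z y : ℤ × ℤ} (h : InOrb (nx w) c z)
    (h' : InOrb (nx w) z y) : InOrb (nx w) c y := by
  obtain ⟨i, rfl⟩ := h
  obtain ⟨j, rfl⟩ := h'
  exact ⟨j + i, Function.iterate_add_apply _ _ _ _⟩

lemma inOrb_nx (w : Finset (ℤ × ℤ)) (c : ℤ × ℤ) : InOrb (nx w) c (nx w c) := ⟨1, rfl⟩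

/-- along an orbit the vertices are connected by open edges -/
lemma co_orb (w : Finset (ℤ × ℤ)) (c : ℤ × ℤ) (i : ℕ) : Co w (vx c) (vx ((nx w)^[i] c)) := by
  induction i with
  | zero => exact Co.refl _ _
  | succ i ih =>
    rw [Function.iterate_succ_apply']
    set z := (nx w)^[i] c
    by_cases hl : lab z ∈ w
    · have h1 : nx w z = nxO z := by unfold nx; rw [if_pos hl]
      rw [h1]
      have h2 := vx_nxO z
      exact ih.tail ⟨h2.1, by rw [h2.2]; exact hl⟩
    · have h1 : nx w z = nxC z := by unfold nx; rw [if_neg hl]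
      rw [h1, vx_nxC]
      exact ih

/-- along an orbit the faces are connected by closed dual edges -/
lemma dual_orb {w E : Finset (ℤ × ℤ)} {c : ℤ × ℤ} (hE : ∀ i, lab ((nx w)^[i] c) ∈ E) (i : ℕ) :
    Co (du E w) (fi c) (fi ((nx w)^[i] c)) := by
  induction i with
  | zero => exact Co.refl _ _
  | succ i ih =>
    rw [Function.iterate_succ_apply']
    have hEi := hE i
    set z := (nx w)^[i] c
    by_cases hl : lab z ∈ w
    · have h1 : nx w z = nxO z := by unfold nx; rw [if_pos hl]
      rw [h1, fi_nxO]
      exact ih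
    · have h1 : nx w z = nxC z := by unfold nx; rw [if_neg hl]
      rw [h1]
      have h4 := fi_nxC z
      exact ih.tail ⟨h4.1, by rw [h4.2]; exact mem_du hEi hl⟩

lemma du_mono_left {E E' w : Finset (ℤ × ℤ)} (h : E ⊆ E') : du E w ⊆ du E' w := by
  unfold du
  exact map_subset_map.2 (sdiff_subset_sdiff h (subset_refl _))

lemma du_anti {E w w' : Finset (ℤ × ℤ)} (h : w' ⊆ w) : du E w ⊆ du E w' := by
  unfold du
  exact map_subset_map.2 (sdiff_subset_sdiff (subset_refl _) h)

lemma ends_of_add {u v e : ℤ × ℤ} (h : IsUnit4 (v - u)) (he : u + v = e) :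
    (u = eu e ∧ v = ev e) ∨ (u = ev e ∧ v = eu e) := by
  subst he
  unfold IsUnit4 at h
  unfold eu ev
  simp only [Prod.ext_iff, Prod.fst_sub, Prod.snd_sub, Prod.fst_add, Prod.snd_add] at h ⊢
  omega

/-- removing an edge whose ends are connected otherwise does not change the connections -/
lemma co_erase {w : Finset (ℤ × ℤ)} {e : ℤ × ℤ} (he : Co (w.erase e) (eu e) (ev e)) {a b : ℤ × ℤ}
    (h : Co w a b) : Co (w.erase e) a b := by
  induction h with
  | refl => exact Co.refl _ _
  | @tail b c _ hbc ih =>
    by_cases hb : b + c = e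
    · rcases ends_of_add hbc.1 hb with ⟨rfl, rfl⟩ | ⟨rfl, rfl⟩
      · exact ih.trans he
      · exact ih.trans he.symm
    · exact ih.tail ⟨hbc.1, mem_erase.2 ⟨hb, hbc.2⟩⟩

/-- an orbit which does not meet the edge `e` does not depend on `e` -/
lemma iter_erase {w : Finset (ℤ × ℤ)} {e c : ℤ × ℤ} (h : ∀ i, lab ((nx w)^[i] c) ≠ e) (i : ℕ) :
    (nx (w.erase e))^[i] c = (nx w)^[i] c := by
  induction i with
  | zero => rfl
  | succ i ih =>
    rw [Function.iterate_succ_apply', Function.iterate_succ_apply', ih]
    have hi := h i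
    set z := (nx w)^[i] c
    unfold nx
    have : lab z ∈ w.erase e ↔ lab z ∈ w := by
      rw [mem_erase]; exact ⟨fun h1 => h1.2, fun h1 => ⟨hi, h1⟩⟩
    by_cases h1 : lab z ∈ w
    · rw [if_pos (this.2 h1), if_pos h1]
    · rw [if_neg (fun h2 => h1 (this.1 h2)), if_neg h1]

/-- **Same cluster and same dual cluster implies same interface.** -/
theorem inOrb_of_co {E : Finset (ℤ × ℤ)} : ∀ (w : Finset (ℤ × ℤ)) {c c' : ℤ × ℤ},
    Co w (vx c) (vx c') → Co (du E w) (fi c) (fi c') → InOrb (nx w) c c' := by
  classical
  intro w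
  induction w using Finset.strongInduction with
  | H w ih =>
    intro c c' h1 h2
    by_cases hcase : ∃ e ∈ w, (e.1 + e.2) % 2 = 1 ∧ ¬ InOrb (nx w) (zu e) (zv e)
    · obtain ⟨e, hew, he, hno⟩ := hcase
      obtain ⟨hop, -, hlu, hlv, hvu, hvv⟩ := opc_zu he
      -- the ends of `e` are connected off `e`
      have hbr : Co (w.erase e) (eu e) (ev e) := by
        obtain ⟨L, hO⟩ := exists_orb_nx w (zu e)
        have key : ∀ i, 1 ≤ i → i ≤ L → Co (w.erase e) (ev e) (vx ((nx w)^[i] (zu e))) := by
          intro i h1 h2
          induction i, h1 using Nat.le_induction with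
          | base =>
            have h3 : (nx w)^[1] (zu e) = nxO (zu e) := by
              rw [Function.iterate_one]; unfold nx; rw [hlu, if_pos hew]
            rw [h3, (nxO_opc _).1, hop, hvv]
            exact Co.refl _ _
          | succ i h1 ih =>
            have ih := ih (by omega)
            rw [Function.iterate_succ_apply']
            have hne : lab ((nx w)^[i] (zu e)) ≠ e := by
              intro h3
              rcases eq_zu_or_zv he h3 with h4 | h4
              · exact hO.inj 0 i h1 (by omega) h4.symm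
              · exact hno ⟨i, h4⟩
            set z := (nx w)^[i] (zu e)
            by_cases hl : lab z ∈ w
            · have h3 : nx w z = nxO z := by unfold nx; rw [if_pos hl]
              rw [h3]
              have h4 := vx_nxO z
              exact ih.tail ⟨h4.1, by rw [h4.2]; exact mem_erase.2 ⟨hne, hl⟩⟩
            · have h3 : nx w z = nxC z := by unfold nx; rw [if_neg hl]
              rw [h3, vx_nxC]
              exact ih
        have := key L hO.pos le_rfl
        rw [hO.per, hvu] at this
        exact this.symm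
      have h3 : InOrb (nx (w.erase e)) c c' :=
        ih (w.erase e) (erase_ssubset hew) (co_erase hbr h1) (h2.mono (du_anti (erase_subset _ _)))
      by_contra hcc
      -- both corners are on the orbits which meet `e`
      have hmeet : ∀ {a b : ℤ × ℤ}, InOrb (nx (w.erase e)) a b → ¬ InOrb (nx w) a b →
          InOrb (nx w) (zu e) a ∨ InOrb (nx w) (zv e) a := by
        intro a b hab hnab
        by_contra hcon
        push Not at hcon
        have h4 : ∀ i, lab ((nx w)^[i] a) ≠ e := by
          intro i h5
          rcases eq_zu_or_zv he h5 with h6 | h6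
          · exact hcon.1 (inOrb_symm ⟨i, h6⟩)
          · exact hcon.2 (inOrb_symm ⟨i, h6⟩)
        obtain ⟨i, hi⟩ := hab
        rw [iter_erase h4] at hi
        exact hnab ⟨i, hi⟩
      have hc := hmeet h3 hcc
      have hc' := hmeet (inOrb_symm h3) (fun h => hcc (inOrb_symm h))
      -- the faces of `e` are joined by a closed dual path
      obtain ⟨Lc, hLc⟩ := exists_orb_nx w c
      obtain ⟨Lc', hLc'⟩ := exists_orb_nx w c'
      set E2 : Finset (ℤ × ℤ) := E ∪ (range Lc).image (fun i => lab ((nx w)^[i] c)) ∪
        (range Lc').image (fun i => lab ((nx w)^[i] c')) with hE2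
      have hEc : ∀ i, lab ((nx w)^[i] c) ∈ E2 := by
        intro i
        rw [← hLc.mod i, hE2, mem_union, mem_union]
        exact Or.inl (Or.inr (mem_image.2 ⟨i % Lc, mem_range.2 (Nat.mod_lt _ hLc.pos), rfl⟩))
      have hEc' : ∀ i, lab ((nx w)^[i] c') ∈ E2 := by
        intro i
        rw [← hLc'.mod i, hE2, mem_union, mem_union]
        exact Or.inr (mem_image.2 ⟨i % Lc', mem_range.2 (Nat.mod_lt _ hLc'.pos), rfl⟩)
      have hcc2 : Co (du E2 w) (fi c) (fi c') :=
        h2.mono (du_mono_left (by rw [hE2]; intro x hx; exact mem_union_left _ (mem_union_left _ hx)))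
      have hw : insert e w = w := insert_eq_self.2 hew
      have hsep : ¬ Co (du E2 w) (fi (zu e)) (fi (zv e)) := by
        intro h5
        have h6 := Pool.Agent.H81.NC.sep_of_dual he (by rw [hw]; exact h5)
        rw [hvu, hvv] at h6
        exact h6 hbr
      rcases hc with hc | hc <;> rcases hc' with hc' | hc'
      · exact hcc (inOrb_trans (inOrb_symm hc) hc')
      · obtain ⟨i, hi⟩ := inOrb_symm hc
        obtain ⟨j, hj⟩ := inOrb_symm hc'
        have h5 := dual_orb hEc i
        have h6 := dual_orb hEc' j
        rw [hi] at h5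
        rw [hj] at h6
        exact hsep ((h5.symm.trans hcc2).trans h6)
      · obtain ⟨i, hi⟩ := inOrb_symm hc
        obtain ⟨j, hj⟩ := inOrb_symm hc'
        have h5 := dual_orb hEc i
        have h6 := dual_orb hEc' j
        rw [hi] at h5
        rw [hj] at h6
        exact hsep ((h5.symm.trans hcc2).trans h6).symm
      · exact hcc (inOrb_trans (inOrb_symm hc) hc')
    · push Not at hcase
      -- all corners at the vertices of a cluster are on one orbit
      have hC : ∀ z, InOrb (nx w) z (nxC z) := by
        intro z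
        by_cases hl : lab z ∈ w
        · have he := odd_lab z
          obtain ⟨hop, hop', -, -, -, -⟩ := opc_zu he
          have h3 := hcase _ hl he
          have h4 : InOrb (nx w) z (opc z) := by
            rcases eq_zu_or_zv he rfl with h5 | h5
            · have h6 : opc z = zv (lab z) := by rw [← hop, ← h5]
              rw [h6]; nth_rewrite 1 [h5]; exact h3
            · have h6 : opc z = zu (lab z) := by rw [← hop', ← h5]
              rw [h6]; nth_rewrite 1 [h5]; exact inOrb_symm h3
          have h5 : nx w (opc z) = nxC z := by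
            unfold nx
            rw [lab_opc, if_pos hl]
            have h6 := nxO_opc (opc z)
            have h7 := nxC_opc z
            rw [opc_opc] at h6
            have h8 : vx (nxO (opc z)) = vx (nxC z) := h6.1.trans h7.1.symm
            have h9 : fi (nxO (opc z)) = fi (nxC z) := h6.2.trans h7.2.symm
            unfold vx at h8
            unfold fi at h9
            simp only [Prod.mk.injEq] at h8 h9
            refine Prod.ext ?_ ?_ <;> omega
          rw [← h5]
          exact inOrb_trans h4 (inOrb_nx _ _)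
        · have h5 : nx w z = nxC z := by unfold nx; rw [if_neg hl]
          rw [← h5]
          exact inOrb_nx _ _
      have hvx : ∀ z y : ℤ × ℤ, vx z = vx y → InOrb (nx w) z y := by
        intro z y hzy
        have hz1 := hC z
        have hz2 := inOrb_trans hz1 (hC (nxC z))
        have hz3 := inOrb_trans hz2 (hC (nxC (nxC z)))
        have hy : y = z ∨ y = nxC z ∨ y = nxC (nxC z) ∨ y = nxC (nxC (nxC z)) := by
          obtain ⟨a, b⟩ := z
          obtain ⟨x, y⟩ := y
          unfold vx at hzy
          simp only [Prod.mk.injEq] at hzy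
          unfold nxC
          have ha : a % 2 = 0 ∨ a % 2 = 1 := by omega
          have hb : b % 2 = 0 ∨ b % 2 = 1 := by omega
          rcases ha with ha | ha <;> rcases hb with hb | hb
          · have e1 : (a + 1) % 2 = 1 := by omega
            have e2 : (b + 1) % 2 = 1 := by omega
            simp only [ha, hb, e1, e2, if_true, one_ne_zero, if_false, Prod.mk.injEq]
            omega
          · have e1 : (a + 1) % 2 = 1 := by omega
            have e2 : (b - 1) % 2 = 0 := by omega
            simp only [ha, hb, e1, e2, if_true, one_ne_zero, if_false, Prod.mk.injEq]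
            omega
          · have e1 : (a - 1) % 2 = 0 := by omega
            have e2 : (b + 1) % 2 = 1 := by omega
            simp only [ha, hb, e1, e2, if_true, one_ne_zero, if_false, Prod.mk.injEq]
            omega
          · have e1 : (a - 1) % 2 = 0 := by omega
            have e2 : (b - 1) % 2 = 0 := by omega
            simp only [ha, hb, e1, e2, if_true, one_ne_zero, if_false, Prod.mk.injEq]
            omega
        rcases hy with rfl | rfl | rfl | rfl
        · exact ⟨0, rfl⟩
        · exact hz1
        · exact hz2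
        · exact hz3
      have main : ∀ a b : ℤ × ℤ, Co w a b → ∀ z y : ℤ × ℤ, vx z = a → vx y = b → InOrb (nx w) z y := by
        intro a b hab
        induction hab with
        | refl => intro z y hz hy; exact hvx z y (hz.trans hy.symm)
        | @tail b d _ hbc ihab =>
          intro z y hz hy
          have he : ((b + d).1 + (b + d).2) % 2 = 1 := by
            have := hbc.1
            unfold IsUnit4 at this
            simp only [Prod.ext_iff, Prod.fst_sub, Prod.snd_sub, Prod.fst_add, Prod.snd_add] at this ⊢
            omega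
          obtain ⟨hop, hop', hlu, hlv, hvu, hvv⟩ := opc_zu he
          rcases ends_of_add hbc.1 rfl with ⟨h5, h6⟩ | ⟨h5, h6⟩
          · have h7 := ihab z (zu (b + d)) hz (hvu.trans h5.symm)
            have h8 : vx (nx w (zu (b + d))) = vx y := by
              unfold nx
              rw [hlu, if_pos hbc.2, (nxO_opc _).1, hop, hvv, ← h6, hy]
            exact inOrb_trans (inOrb_trans h7 (inOrb_nx _ _)) (hvx _ _ h8)
          · have h7 := ihab z (zv (b + d)) hz (hvv.trans h5.symm)
            have h8 : vx (nx w (zv (b + d))) = vx y := by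
              unfold nx
              rw [hlv, if_pos hbc.2, (nxO_opc _).1, hop', hvu, ← h6, hy]
            exact inOrb_trans (inOrb_trans h7 (inOrb_nx _ _)) (hvx _ _ h8)
      exact main _ _ h1 c c' rfl rfl

/-- **Two corners are on the same interface iff their vertices are in the same cluster and their faces
in the same dual cluster** (`E` = any set which contains the labels met by the orbit of `c`). -/
theorem inOrb_iff {E w : Finset (ℤ × ℤ)} {c c' : ℤ × ℤ} (hE : ∀ i, lab ((nx w)^[i] c) ∈ E) :
    InOrb (nx w) c c' ↔ Co w (vx c) (vx c') ∧ Co (du E w) (fi c) (fi c') := by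
  constructor
  · rintro ⟨i, rfl⟩
    exact ⟨co_orb w c i, dual_orb hE i⟩
  · rintro ⟨h1, h2⟩
    exact inOrb_of_co w h1 h2

/-- The same with the inverse map `pv`. -/
lemma inOrb_pv_iff {w : Finset (ℤ × ℤ)} {c c' : ℤ × ℤ} :
    InOrb (pv w) c c' ↔ InOrb (nx w) c c' := by
  have h1 : ∀ (i : ℕ) (z : ℤ × ℤ), (nx w)^[i] ((pv w)^[i] z) = z := by
    intro i
    induction i with
    | zero => intro z; rfl
    | succ i ih =>
      intro z
      rw [Function.iterate_succ_apply, Function.iterate_succ_apply', nx_pv]
      exact ih z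
  have h2 : ∀ (i : ℕ) (z : ℤ × ℤ), (pv w)^[i] ((nx w)^[i] z) = z := by
    intro i
    induction i with
    | zero => intro z; rfl
    | succ i ih =>
      intro z
      rw [Function.iterate_succ_apply, Function.iterate_succ_apply', pv_nx]
      exact ih z
  constructor
  · rintro ⟨i, rfl⟩
    exact inOrb_symm ⟨i, h1 i c⟩
  · intro h
    obtain ⟨i, rfl⟩ := inOrb_symm h
    exact ⟨i, h2 i c'⟩

end Pool.Agent.H69.Q1
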