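import Mathlib
import Pool.Agent.H69.Q1.Orbit
import Pool.Agent.H99.NC.PrP

set_option autoImplicit false
open Finset

/-! # Exploration paths in abstract Dobrushin environments

`DEnv`: free labels `E`, wired labels `W`, corners `α`, `β` such that the exploration (iterates of
`pv (ω ∪ W)`) from `α` reaches `β` for every `ω ⊆ E`. Path, simplicity, locality, stopping rules, the
explored set and the domain Markov property. -/

namespace Pool.Agent.H69.Q1

open Pool.Agent.H75.Perc Pool.Agent.H75.TwoArm Pool.Agent.H99.NC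

lemma pv_inj (w : Finset (ℤ × ℤ)) : Function.Injective (pv w) := fun a b h => by
  have := congrArg (nx w) h
  rwa [nx_pv, nx_pv] at this

/-- the inverse map only depends on the state of the edge `plab` -/
lemma pv_eq_of {w w' : Finset (ℤ × ℤ)} {z : ℤ × ℤ} (h : plab z ∈ w' ↔ plab z ∈ w) :
    pv w' z = pv w z := Pool.Agent.H75.TwoArm.StrandAux.pv_congr h

/-- An environment with an exploration path from the corner `α` to the corner `β`. -/
structure DEnv where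
  /-- labels of the free (random) edges -/
  E : Finset (ℤ × ℤ)
  /-- labels of the wired edges -/
  W : Finset (ℤ × ℤ)
  /-- starting corner -/
  α : ℤ × ℤ
  /-- final corner -/
  β : ℤ × ℤ
  disj : Disjoint E W
  reach : ∀ ω, ω ⊆ E → ∃ i, (pv (ω ∪ W))^[i] α = β

namespace DEnv

variable (X : DEnv)

/-- The corners of the exploration path in the configuration `ω`. -/
def cor (ω : Finset (ℤ × ℤ)) (i : ℕ) : ℤ × ℤ := (pv (ω ∪ X.W))^[i] X.α

/-- Number of steps of the exploration path. -/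
noncomputable def len (ω : Finset (ℤ × ℤ)) : ℕ := sInf {i | X.cor ω i = X.β}

@[simp] lemma cor_zero (ω : Finset (ℤ × ℤ)) : X.cor ω 0 = X.α := rfl

lemma cor_succ (ω : Finset (ℤ × ℤ)) (i : ℕ) :
    X.cor ω (i + 1) = pv (ω ∪ X.W) (X.cor ω i) := Function.iterate_succ_apply' _ _ _

lemma cor_add (ω : Finset (ℤ × ℤ)) (i j : ℕ) :
    X.cor ω (i + j) = (pv (ω ∪ X.W))^[i] (X.cor ω j) := Function.iterate_add_apply _ _ _ _

lemma cor_len {ω : Finset (ℤ × ℤ)} (hω : ω ⊆ X.E) : X.cor ω (X.len ω) = X.β :=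
  Nat.sInf_mem (s := {i | X.cor ω i = X.β}) (X.reach ω hω)

lemma cor_ne {ω : Finset (ℤ × ℤ)} {i : ℕ} (h : i < X.len ω) : X.cor ω i ≠ X.β :=
  fun h1 => Nat.notMem_of_lt_sInf h h1

lemma len_le {ω : Finset (ℤ × ℤ)} {i : ℕ} (h : X.cor ω i = X.β) : X.len ω ≤ i := Nat.sInf_le h

/-- The exploration path is simple. -/
lemma cor_inj {ω : Finset (ℤ × ℤ)} (hω : ω ⊆ X.E) {i j : ℕ} (hi : i ≤ X.len ω)
    (hj : j ≤ X.len ω) (h : X.cor ω i = X.cor ω j) : i = j := by
  have key : ∀ i j : ℕ, i < j → j ≤ X.len ω → X.cor ω i ≠ X.cor ω j := by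
    intro i j hij hj h
    have h1 : (pv (ω ∪ X.W))^[i] X.α = (pv (ω ∪ X.W))^[i] (X.cor ω (j - i)) := by
      rw [← X.cor_add, Nat.add_sub_cancel' hij.le]; exact h
    have h2 : X.α = X.cor ω (j - i) := (pv_inj _).iterate i h1
    have h3 : X.cor ω (X.len ω - (j - i)) = X.β := by
      have h4 : X.cor ω ((X.len ω - (j - i)) + (j - i)) = X.cor ω (X.len ω - (j - i)) := by
        rw [X.cor_add, ← h2]; rfl
      rw [Nat.sub_add_cancel (by omega), X.cor_len hω] at h4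
      exact h4.symm
    exact X.cor_ne (by omega) h3
  rcases lt_trichotomy i j with h1 | h1 | h1
  · exact absurd h (key i j h1 hj)
  · exact h1
  · exact absurd h.symm (key j i h1 hi)

/-! ### Locality -/

/-- If `ω'` agrees with `ω` on the free edges met in the first `n` steps then the first `n` steps
agree. -/
lemma cor_congr {ω ω' : Finset (ℤ × ℤ)} (hω : ω ⊆ X.E) (hω' : ω' ⊆ X.E) {n : ℕ}
    (h : ∀ k < n, plab (X.cor ω k) ∈ X.E → (plab (X.cor ω k) ∈ ω' ↔ plab (X.cor ω k) ∈ ω)) :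
    ∀ k ≤ n, X.cor ω' k = X.cor ω k := by
  intro k
  induction k with
  | zero => intro _; rfl
  | succ k ih =>
    intro hk
    rw [X.cor_succ, X.cor_succ, ih (by omega)]
    refine pv_eq_of ?_
    rw [mem_union, mem_union]
    by_cases hE : plab (X.cor ω k) ∈ X.E
    · rw [h k (by omega) hE]
    · constructor
      · rintro (h1 | h1)
        · exact absurd (hω' h1) hE
        · exact Or.inr h1
      · rintro (h1 | h1)
        · exact absurd (hω h1) hE
        · exact Or.inr h1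

/-! ### Stopping rules -/

/-- `Q i z`: stop at time `i` when the corners are `z`; adapted: depends on `z 0, …, z i` only. -/
def Adapted (Q : ℕ → (ℕ → ℤ × ℤ) → Prop) : Prop :=
  ∀ i z z', (∀ j ≤ i, z j = z' j) → (Q i z ↔ Q i z')

/-- The stopping time of the rule `Q` (at the latest when `β` is reached). -/
noncomputable def tau (Q : ℕ → (ℕ → ℤ × ℤ) → Prop) (ω : Finset (ℤ × ℤ)) : ℕ :=
  sInf {i | Q i (X.cor ω) ∨ X.cor ω i = X.β}

variable {Q : ℕ → (ℕ → ℤ × ℤ) → Prop}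

lemma tau_spec {ω : Finset (ℤ × ℤ)} (hω : ω ⊆ X.E) :
    Q (X.tau Q ω) (X.cor ω) ∨ X.cor ω (X.tau Q ω) = X.β :=
  Nat.sInf_mem (s := {i | Q i (X.cor ω) ∨ X.cor ω i = X.β}) ⟨_, Or.inr (X.cor_len hω)⟩

lemma tau_min {ω : Finset (ℤ × ℤ)} {i : ℕ} (h : i < X.tau Q ω) :
    ¬ Q i (X.cor ω) ∧ X.cor ω i ≠ X.β := by
  have := Nat.notMem_of_lt_sInf h
  simp only [Set.mem_ofPred_eq, not_or] at this
  exact this

lemma tau_le_len {ω : Finset (ℤ × ℤ)} (hω : ω ⊆ X.E) : X.tau Q ω ≤ X.len ω :=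
  Nat.sInf_le (Or.inr (X.cor_len hω))

/-- Locality of the stopping time. -/
lemma tau_congr (hQ : Adapted Q) {ω ω' : Finset (ℤ × ℤ)} (hω : ω ⊆ X.E) (hω' : ω' ⊆ X.E)
    (h : ∀ k < X.tau Q ω, plab (X.cor ω k) ∈ X.E →
      (plab (X.cor ω k) ∈ ω' ↔ plab (X.cor ω k) ∈ ω)) :
    X.tau Q ω' = X.tau Q ω ∧ ∀ k ≤ X.tau Q ω, X.cor ω' k = X.cor ω k := by
  have h1 := X.cor_congr hω hω' h
  refine ⟨?_, h1⟩
  have h2 : ∀ i ≤ X.tau Q ω, ((Q i (X.cor ω') ∨ X.cor ω' i = X.β) ↔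
      (Q i (X.cor ω) ∨ X.cor ω i = X.β)) := by
    intro i hi
    rw [hQ i (X.cor ω') (X.cor ω) (fun j hj => h1 j (by omega)), h1 i hi]
  apply le_antisymm
  · exact Nat.sInf_le ((h2 _ le_rfl).2 (X.tau_spec hω))
  · by_contra hlt
    push Not at hlt
    have h3 := (h2 _ hlt.le).1 (X.tau_spec hω')
    have h4 := X.tau_min hlt
    rcases h3 with h3 | h3
    · exact h4.1 h3
    · exact h4.2 h3

/-- The free edges met before the stopping time. -/
noncomputable def exset (Q : ℕ → (ℕ → ℤ × ℤ) → Prop) (ω : Finset (ℤ × ℤ)) : Finset (ℤ × ℤ) :=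
  X.E ∩ (range (X.tau Q ω)).image (fun k => plab (X.cor ω k))

lemma mem_exset {ω : Finset (ℤ × ℤ)} {e : ℤ × ℤ} :
    e ∈ X.exset Q ω ↔ e ∈ X.E ∧ ∃ k < X.tau Q ω, plab (X.cor ω k) = e := by
  unfold exset
  rw [mem_inter, mem_image]
  simp only [mem_range]

lemma exset_sub (ω : Finset (ℤ × ℤ)) : X.exset Q ω ⊆ X.E := inter_subset_left

/-- Everything up to the stopping time only depends on the explored edges. -/
theorem local_exset (hQ : Adapted Q) {ω ω' : Finset (ℤ × ℤ)} (hω : ω ⊆ X.E) (hω' : ω' ⊆ X.E)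
    (h : ∀ e ∈ X.exset Q ω, (e ∈ ω' ↔ e ∈ ω)) :
    X.tau Q ω' = X.tau Q ω ∧ (∀ k ≤ X.tau Q ω, X.cor ω' k = X.cor ω k) ∧
      X.exset Q ω' = X.exset Q ω := by
  obtain ⟨h1, h2⟩ := X.tau_congr hQ hω hω' (fun k hk hE => h _ (X.mem_exset.2 ⟨hE, k, hk, rfl⟩))
  refine ⟨h1, h2, ?_⟩
  ext e
  rw [mem_exset, mem_exset, h1]
  constructor
  · rintro ⟨he, k, hk, hk'⟩
    exact ⟨he, k, hk, by rw [← h2 k hk.le]; exact hk'⟩
  · rintro ⟨he, k, hk, hk'⟩
    exact ⟨he, k, hk, by rw [h2 k hk.le]; exact hk'⟩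

/-- Resampling the unexplored edges does not change the explored part. -/
theorem exset_mix (hQ : Adapted Q) {ω ω' : Finset (ℤ × ℤ)} (hω : ω ⊆ X.E) (hω' : ω' ⊆ X.E) :
    X.exset Q (mix (X.exset Q ω) ω ω') = X.exset Q ω := by
  refine (X.local_exset hQ hω (mix_subset hω hω') fun e he => ?_).2.2
  rw [mem_mix]
  tauto

theorem tau_mix (hQ : Adapted Q) {ω ω' : Finset (ℤ × ℤ)} (hω : ω ⊆ X.E) (hω' : ω' ⊆ X.E) :
    X.tau Q (mix (X.exset Q ω) ω ω') = X.tau Q ω ∧
      ∀ k ≤ X.tau Q ω, X.cor (mix (X.exset Q ω) ω ω') k = X.cor ω k := by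
  have h := X.local_exset hQ hω (mix_subset hω hω') (ω' := mix (X.exset Q ω) ω ω')
    (fun e he => by rw [mem_mix]; tauto)
  exact ⟨h.1, h.2.1⟩

/-! ### Domain Markov property -/

lemma mix_union_sdiff (U ω ω' W : Finset (ℤ × ℤ)) :
    mix U ω ω' ∪ W = (ω' \ U) ∪ (W ∪ (ω ∩ U)) := by
  ext e
  rw [mem_union, mem_mix, mem_union, mem_union, mem_sdiff, mem_inter]
  tauto

/-- The environment after the stopping time: the explored edges are no longer random, the explored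
open edges are wired, the path continues from the current corner. -/
noncomputable def after (Q : ℕ → (ℕ → ℤ × ℤ) → Prop) (hQ : Adapted Q) (ω : Finset (ℤ × ℤ))
    (hω : ω ⊆ X.E) : DEnv where
  E := X.E \ X.exset Q ω
  W := X.W ∪ (ω ∩ X.exset Q ω)
  α := X.cor ω (X.tau Q ω)
  β := X.β
  disj := by
    have := X.disj
    rw [disjoint_left] at this ⊢
    intro e he h1
    rw [mem_sdiff] at he
    rw [mem_union, mem_inter] at h1
    rcases h1 with h1 | h1
    · exact this he.1 h1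
    · exact he.2 h1.2
  reach := by
    intro η hη
    have hη' : η ⊆ X.E := hη.trans sdiff_subset
    have h1 : η ∪ (X.W ∪ (ω ∩ X.exset Q ω)) = mix (X.exset Q ω) ω η ∪ X.W := by
      rw [mix_union_sdiff]
      congr 1
      ext e
      rw [mem_sdiff]
      exact ⟨fun h => ⟨h, (mem_sdiff.1 (hη h)).2⟩, fun h => h.1⟩
    obtain ⟨h2, h3⟩ := X.tau_mix hQ hω hη'
    have h4 := X.cor_len (mix_subset hω hη' (U := X.exset Q ω))
    have h5 := X.tau_le_len (Q := Q) (mix_subset hω hη' (U := X.exset Q ω))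
    rw [h2] at h5
    refine ⟨X.len (mix (X.exset Q ω) ω η) - X.tau Q ω, ?_⟩
    rw [h1, ← h3 _ le_rfl, ← X.cor_add, Nat.sub_add_cancel h5, h4]

section markov

variable (hQ : Adapted Q) {ω : Finset (ℤ × ℤ)} (hω : ω ⊆ X.E)

@[simp] lemma after_E : (X.after Q hQ ω hω).E = X.E \ X.exset Q ω := rfl
@[simp] lemma after_W : (X.after Q hQ ω hω).W = X.W ∪ (ω ∩ X.exset Q ω) := rfl
@[simp] lemma after_α : (X.after Q hQ ω hω).α = X.cor ω (X.tau Q ω) := rfl
@[simp] lemma after_β : (X.after Q hQ ω hω).β = X.β := rfl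

/-- The configuration seen by the new environment. -/
lemma after_conf (ω' : Finset (ℤ × ℤ)) :
    (ω' \ X.exset Q ω) ∪ (X.after Q hQ ω hω).W = mix (X.exset Q ω) ω ω' ∪ X.W := by
  rw [mix_union_sdiff]; rfl

/-- **Domain Markov property, pathwise**: in the resampled configuration the path after the stopping
time is the exploration path of the new environment. -/
theorem after_cor {ω' : Finset (ℤ × ℤ)} (hω' : ω' ⊆ X.E) (i : ℕ) :
    (X.after Q hQ ω hω).cor (ω' \ X.exset Q ω) i =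
      X.cor (mix (X.exset Q ω) ω ω') (i + X.tau Q ω) := by
  obtain ⟨h2, h3⟩ := X.tau_mix hQ hω hω'
  rw [X.cor_add, h3 _ le_rfl]
  unfold cor
  rw [X.after_conf hQ hω]
  rfl

theorem after_len {ω' : Finset (ℤ × ℤ)} (hω' : ω' ⊆ X.E) :
    (X.after Q hQ ω hω).len (ω' \ X.exset Q ω) + X.tau Q ω =
      X.len (mix (X.exset Q ω) ω ω') := by
  have hm := mix_subset hω hω' (U := X.exset Q ω)
  have h5 := X.tau_le_len (Q := Q) hm
  rw [(X.tau_mix hQ hω hω').1] at h5
  have hsub : ω' \ X.exset Q ω ⊆ (X.after Q hQ ω hω).E := sdiff_subset_sdiff hω' (subset_refl _)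
  apply le_antisymm
  · have h6 : (X.after Q hQ ω hω).len (ω' \ X.exset Q ω) ≤
        X.len (mix (X.exset Q ω) ω ω') - X.tau Q ω := by
      refine len_le _ ?_
      rw [X.after_cor hQ hω hω', Nat.sub_add_cancel h5, X.cor_len hm]
      rfl
    omega
  · refine X.len_le ?_
    rw [← X.after_cor hQ hω hω', cor_len _ hsub]
    rfl

end markov

/-- Conditional expectation given the explored edges: the unexplored edges are resampled. -/
theorem Ex_markov (q : ℤ × ℤ → ℝ) (hQ : Adapted Q) (f : Finset (ℤ × ℤ) → ℝ) :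
    Ex q X.E f = Ex q X.E (fun ω => Ex q (X.E \ X.exset Q ω) (fun η => f (η ∪ (ω ∩ X.exset Q ω)))) := by
  rw [← Ex_resample1 q X.E (X.exset Q) (fun ω ω' h h' => X.exset_mix hQ h h') f]
  refine Ex_congr fun ω hω => ?_
  rw [← Ex_restrict q (E := X.E) (E1 := X.E \ X.exset Q ω) sdiff_subset
    (fun η => f (η ∪ (ω ∩ X.exset Q ω)))]
  refine Ex_congr fun ω' hω' => ?_
  congr 1
  ext e
  rw [mem_mix, mem_union, mem_inter, mem_inter, mem_sdiff]
  constructor
  · rintro (h | h)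
    · exact Or.inr h
    · exact Or.inl ⟨h.1, hω' h.1, h.2⟩
  · rintro (h | h)
    · exact Or.inr ⟨h.1, h.2.2⟩
    · exact Or.inl h

/-- **Domain Markov property**: if on the explored set `B ω` holds and implies that, in the new
environment, `A` forces an event of conditional probability at most `c`, then `P(A ∧ B) ≤ c P(B)`. -/
theorem markov_le {q : ℤ × ℤ → ℝ} (hq : Pb q) (hQ : Adapted Q) (A B : Finset (ℤ × ℤ) → Prop)
    (Y : Finset (ℤ × ℤ) → Finset (ℤ × ℤ) → Prop) (c : ℝ)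
    (hB : ∀ ω ω', ω ⊆ X.E → ω' ⊆ X.E → B (mix (X.exset Q ω) ω ω') → B ω)
    (hc : ∀ ω, ω ⊆ X.E → B ω → PrP q (X.E \ X.exset Q ω) (Y ω) ≤ c)
    (hY : ∀ ω ω', ω ⊆ X.E → ω' ⊆ X.E → B ω → A (mix (X.exset Q ω) ω ω') →
      Y ω (ω' \ X.exset Q ω)) :
    PrP q X.E (fun ω => A ω ∧ B ω) ≤ PrP q X.E B * c := by
  refine resampleP_le hq X.E (X.exset Q) (fun ω ω' h h' => X.exset_mix hQ h h') A B
    (fun ω ω' => Y ω (ω' \ X.exset Q ω)) c hB ?_ hY
  intro ω hω hBω
  have h1 : PrP q X.E (fun ω' => Y ω (ω' \ X.exset Q ω)) = PrP q (X.E \ X.exset Q ω) (Y ω) := by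
    rw [← PrP_restrict q (E := X.E) (E1 := X.E \ X.exset Q ω) sdiff_subset]
    refine PrP_congr fun ω' hω' => ?_
    have : ω' ∩ (X.E \ X.exset Q ω) = ω' \ X.exset Q ω := by
      ext e
      rw [mem_inter, mem_sdiff, mem_sdiff]
      exact ⟨fun h => ⟨h.1, h.2.2⟩, fun h => ⟨h.1, hω' h.1, h.2⟩⟩
    rw [this]
  rw [h1]
  exact hc ω hω hBω

/-! ### Standard stopping rules -/

/-- Stop when the corner satisfies `P`. -/
def hit (P : ℤ × ℤ → Prop) : ℕ → (ℕ → ℤ × ℤ) → Prop := fun i z => P (z i)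

lemma adapted_hit (P : ℤ × ℤ → Prop) : Adapted (hit P) := fun i z z' h => by
  unfold hit; rw [h i le_rfl]

/-- Stop after `n` steps. -/
def steps (n : ℕ) : ℕ → (ℕ → ℤ × ℤ) → Prop := fun i _ => i = n

lemma adapted_steps (n : ℕ) : Adapted (steps n) := fun _ _ _ _ => Iff.rfl

/-- Stop at the first time after the rule `Q` has stopped (strictly after) when `P` holds. -/
def thenHit (Q : ℕ → (ℕ → ℤ × ℤ) → Prop) (P : ℤ × ℤ → Prop) : ℕ → (ℕ → ℤ × ℤ) → Prop :=
  fun i z => (∃ j < i, Q j z) ∧ P (z i)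

lemma adapted_thenHit {Q : ℕ → (ℕ → ℤ × ℤ) → Prop} (hQ : Adapted Q) (P : ℤ × ℤ → Prop) :
    Adapted (thenHit Q P) := fun i z z' h => by
  unfold thenHit
  rw [h i le_rfl]
  have : (∃ j < i, Q j z) ↔ (∃ j < i, Q j z') := by
    constructor
    · rintro ⟨j, hj, h1⟩
      exact ⟨j, hj, (hQ j z z' fun k hk => h k (by omega)).1 h1⟩
    · rintro ⟨j, hj, h1⟩
      exact ⟨j, hj, (hQ j z z' fun k hk => h k (by omega)).2 h1⟩
  rw [this]

end DEnv

end Pool.Agent.H69.Q1
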