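import Mathlib
import Pool.Agent.H81.Q1.Exploration
import Pool.Agent.H75.TwoArm.Defs
import Pool.Agent.H99.NC.Plane

set_option autoImplicit false
set_option linter.unnecessarySeqFocus false

/-! # Bridge between the statement of Q1 and the label lattice of the percolation library

* `cor` : corners `(v, q)` ↔ corner lattice; `lb` : edges ↔ labels (sum of the end points).
* `cor_next` : the step `next w` of the exploration is `pv` of the set of labels of `w`.
* `DDomain.E`, `DDomain.W` : labels of the free edges and of the wired arc.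
* `expl` : the exploration path in label form; `explore_eq`.
* `law_apply` : law of the exploration path = `Pr E`; `law_eq_map` : law = image of the product
  measure. -/

open Set Topology MeasureTheory Filter
open Pool.Agent.H81.Q1
open Pool.Agent.H75.Perc (pv nx lab vx Pr nxC nxO)
open Pool.Agent.H75.TwoArm (plab fi)

namespace Pool.Agent.H69.Q1

/-- The corner `(v, q)` in the corner lattice: SW `(2x,2y)`, SE `(2x+1,2y)`, NE `(2x+1,2y+1)`,
NW `(2x,2y+1)`. -/
def cor (c : Corner) : ℤ × ℤ :=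
  (2 * c.1.1 + (if c.2 = 0 ∨ c.2 = 3 then 1 else 0), 2 * c.1.2 + (if c.2 = 0 ∨ c.2 = 1 then 1 else 0))

/-- Label of an edge: the sum of its end points. -/
def lb (e : Sym2 (ℤ × ℤ)) : ℤ × ℤ := Sym2.lift ⟨fun u v => u + v, fun u v => add_comm u v⟩ e

@[simp] lemma lb_mk (u v : ℤ × ℤ) : lb s(u, v) = u + v := rfl

lemma q_cases (q : ZMod 4) : q = 0 ∨ q = 1 ∨ q = 2 ∨ q = 3 := by
  revert q; decide

lemma cor_zero (v : ℤ × ℤ) : cor (v, 0) = (2 * v.1 + 1, 2 * v.2 + 1) := by simp [cor]
lemma cor_one (v : ℤ × ℤ) : cor (v, 1) = (2 * v.1, 2 * v.2 + 1) := by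
  have h1 : ¬((1 : ZMod 4) = 0 ∨ (1 : ZMod 4) = 3) := by decide
  simp only [cor, if_neg h1]; simp
lemma cor_two (v : ℤ × ℤ) : cor (v, 2) = (2 * v.1, 2 * v.2) := by
  have h1 : ¬((2 : ZMod 4) = 0 ∨ (2 : ZMod 4) = 3) := by decide
  have h2 : ¬((2 : ZMod 4) = 0 ∨ (2 : ZMod 4) = 1) := by decide
  simp only [cor, if_neg h1, if_neg h2]; simp
lemma cor_three (v : ℤ × ℤ) : cor (v, 3) = (2 * v.1 + 1, 2 * v.2) := by
  have h2 : ¬((3 : ZMod 4) = 0 ∨ (3 : ZMod 4) = 1) := by decide
  simp only [cor, if_neg h2]; simp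

lemma dir_zero : dir 0 = (1, 0) := by simp [dir]
lemma dir_one : dir 1 = (0, 1) := by
  have h1 : ¬((1 : ZMod 4) = 0) := by decide
  simp [dir, h1]
lemma dir_two : dir 2 = (-1, 0) := by
  have h1 : ¬((2 : ZMod 4) = 0) := by decide
  have h2 : ¬((2 : ZMod 4) = 1) := by decide
  simp [dir, h1, h2]
lemma dir_three : dir 3 = (0, -1) := by
  have h1 : ¬((3 : ZMod 4) = 0) := by decide
  have h2 : ¬((3 : ZMod 4) = 1) := by decide
  have h3 : ¬((3 : ZMod 4) = 2) := by decide
  simp [dir, h1, h2, h3]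

lemma vx_cor (c : Corner) : vx (cor c) = c.1 := by
  obtain ⟨v, q⟩ := c
  rcases q_cases q with rfl | rfl | rfl | rfl
  · rw [cor_zero]; unfold vx; ext <;> simp only <;> omega
  · rw [cor_one]; unfold vx; ext <;> simp only <;> omega
  · rw [cor_two]; unfold vx; ext <;> simp only <;> omega
  · rw [cor_three]; unfold vx; ext <;> simp only <;> omega

lemma cor_injective : Function.Injective cor := by
  rintro ⟨v, q⟩ ⟨v', q'⟩ h
  have h1 : v = v' := by
    have := congrArg vx h
    simpa only [vx_cor] using this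
  subst h1
  rcases q_cases q with rfl | rfl | rfl | rfl <;> rcases q_cases q' with rfl | rfl | rfl | rfl <;>
    first
    | rfl
    | (exfalso
       simp only [cor_zero, cor_one, cor_two, cor_three, Prod.mk.injEq] at h
       omega)

lemma cor_surjective : Function.Surjective cor := by
  rintro ⟨a, b⟩
  have h1 : a % 2 = 0 ∨ a % 2 = 1 := by omega
  have h2 : b % 2 = 0 ∨ b % 2 = 1 := by omega
  rcases h1 with h1 | h1 <;> rcases h2 with h2 | h2
  · refine ⟨((a / 2, b / 2), 2), ?_⟩
    rw [cor_two]; ext <;> simp only <;> omega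
  · refine ⟨((a / 2, b / 2), 1), ?_⟩
    rw [cor_one]; ext <;> simp only <;> omega
  · refine ⟨((a / 2, b / 2), 3), ?_⟩
    rw [cor_three]; ext <;> simp only <;> omega
  · refine ⟨((a / 2, b / 2), 0), ?_⟩
    rw [cor_zero]; ext <;> simp only <;> omega

lemma fi_cor (c : Corner) : fi (cor c) = (c.face.1 + 1, c.face.2 + 1) := by
  obtain ⟨v, q⟩ := c
  have h10 : ¬((1 : ZMod 4) = 0) := by decide
  have h20 : ¬((2 : ZMod 4) = 0) := by decide
  have h21 : ¬((2 : ZMod 4) = 1) := by decide
  have h30 : ¬((3 : ZMod 4) = 0) := by decide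
  have h31 : ¬((3 : ZMod 4) = 1) := by decide
  have h32 : ¬((3 : ZMod 4) = 2) := by decide
  rcases q_cases q with rfl | rfl | rfl | rfl
  · rw [cor_zero]; unfold fi Corner.face; simp only [if_true]; ext <;> simp only <;> omega
  · rw [cor_one]; unfold fi Corner.face; simp only [h10, if_true, if_false]
    ext <;> simp only <;> omega
  · rw [cor_two]; unfold fi Corner.face; simp only [h20, h21, if_true, if_false]
    ext <;> simp only <;> omega
  · rw [cor_three]; unfold fi Corner.face; simp only [h30, h31, h32, if_false]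
    ext <;> simp only <;> omega

/-- The edge met by the next step of the exploration. -/
lemma plab_cor (c : Corner) : plab (cor c) = lb c.edge := by
  obtain ⟨v, q⟩ := c
  unfold Corner.edge
  rw [lb_mk]
  rcases q_cases q with rfl | rfl | rfl | rfl
  · rw [cor_zero, dir_zero]
    have e1 : (2 * v.1 + 1) % 2 = 1 := by omega
    have e2 : (2 * v.2 + 1) % 2 = 1 := by omega
    unfold plab
    simp only [e1, e2]
    ext <;> simp <;> ring
  · rw [cor_one, dir_one]
    have e1 : (2 * v.1) % 2 = 0 := by omega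
    have e2 : (2 * v.2 + 1) % 2 = 1 := by omega
    unfold plab
    simp only [e1, e2]
    ext <;> simp <;> ring
  · rw [cor_two, dir_two]
    have e1 : (2 * v.1) % 2 = 0 := by omega
    have e2 : (2 * v.2) % 2 = 0 := by omega
    unfold plab
    simp only [e1, e2]
    ext <;> simp <;> ring
  · rw [cor_three, dir_three]
    have e1 : (2 * v.1 + 1) % 2 = 1 := by omega
    have e2 : (2 * v.2) % 2 = 0 := by omega
    unfold plab
    simp only [e1, e2]
    ext <;> simp <;> ring

/-- The edge met before (the one in direction `q + 1`). -/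
lemma lab_cor (v : ℤ × ℤ) (q : ZMod 4) : lab (cor (v, q)) = v + (v + dir (q + 1)) := by
  rcases q_cases q with rfl | rfl | rfl | rfl
  · rw [cor_zero, zero_add, dir_one]
    have e1 : (2 * v.1 + 1) % 2 = 1 := by omega
    have e2 : (2 * v.2 + 1) % 2 = 1 := by omega
    unfold lab
    simp only [e1, e2]
    ext <;> simp <;> ring
  · rw [cor_one, show (1 : ZMod 4) + 1 = 2 by decide, dir_two]
    have e1 : (2 * v.1) % 2 = 0 := by omega
    have e2 : (2 * v.2 + 1) % 2 = 1 := by omega
    unfold lab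
    simp only [e1, e2]
    ext <;> simp <;> ring
  · rw [cor_two, show (2 : ZMod 4) + 1 = 3 by decide, dir_three]
    have e1 : (2 * v.1) % 2 = 0 := by omega
    have e2 : (2 * v.2) % 2 = 0 := by omega
    unfold lab
    simp only [e1, e2]
    ext <;> simp <;> ring
  · rw [cor_three, show (3 : ZMod 4) + 1 = 0 by decide, dir_zero]
    have e1 : (2 * v.1 + 1) % 2 = 1 := by omega
    have e2 : (2 * v.2) % 2 = 0 := by omega
    unfold lab
    simp only [e1, e2]
    ext <;> simp <;> ring

/-- `pv` in terms of `plab`. -/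
lemma pv_cor (L : Finset (ℤ × ℤ)) (c : Corner) :
    pv L (cor c) = if plab (cor c) ∈ L then cor (c.1 + dir c.2, c.2 + 1) else cor (c.1, c.2 - 1) := by
  obtain ⟨v, q⟩ := c
  rcases q_cases q with rfl | rfl | rfl | rfl
  · have e1 : (2 * v.1 + 1) % 2 = 1 := by omega
    have e2 : (2 * v.2 + 1) % 2 = 1 := by omega
    simp only [zero_add, show (0 : ZMod 4) - 1 = 3 by decide, cor_zero, cor_one, cor_three, dir_zero]
    unfold pv plab
    simp only [e1, e2]
    simp only [one_ne_zero, if_false]
    split_ifs <;> ext <;> simp <;> ring_nf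
  · have e1 : (2 * v.1) % 2 = 0 := by omega
    have e2 : (2 * v.2 + 1) % 2 = 1 := by omega
    simp only [show (1 : ZMod 4) + 1 = 2 by decide, show (1 : ZMod 4) - 1 = 0 by decide, cor_zero,
      cor_one, cor_two, dir_one]
    unfold pv plab
    simp only [e1, e2]
    simp only [one_ne_zero, if_false, if_true]
    split_ifs <;> ext <;> simp <;> ring_nf
  · have e1 : (2 * v.1) % 2 = 0 := by omega
    have e2 : (2 * v.2) % 2 = 0 := by omega
    simp only [show (2 : ZMod 4) + 1 = 3 by decide, show (2 : ZMod 4) - 1 = 1 by decide, cor_three,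
      cor_one, cor_two, dir_two]
    unfold pv plab
    simp only [e1, e2]
    simp only [if_true]
    split_ifs <;> ext <;> simp <;> ring_nf
  · have e1 : (2 * v.1 + 1) % 2 = 1 := by omega
    have e2 : (2 * v.2) % 2 = 0 := by omega
    simp only [show (3 : ZMod 4) + 1 = 0 by decide, show (3 : ZMod 4) - 1 = 2 by decide, cor_three,
      cor_zero, cor_two, dir_three]
    unfold pv plab
    simp only [e1, e2]
    simp only [one_ne_zero, if_false, if_true]
    split_ifs <;> ext <;> simp <;> ring_nf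

/-! ### Edges and labels -/

lemma isUnit_of_adj {u v : ℤ × ℤ} (h : Z2.Adj u v) :
    v = u + (1, 0) ∨ v = u + (0, 1) ∨ v = u + (-1, 0) ∨ v = u + (0, -1) := by
  have h1 : |u.1 - v.1| + |u.2 - v.2| = 1 := h
  simp only [Prod.ext_iff, Prod.fst_add, Prod.snd_add]
  rcases abs_cases (u.1 - v.1) with ⟨e1, _⟩ | ⟨e1, _⟩ <;>
    rcases abs_cases (u.2 - v.2) with ⟨e2, _⟩ | ⟨e2, _⟩ <;> rw [e1, e2] at h1 <;> omega

lemma adj_iff_isUnit {u v : ℤ × ℤ} : Z2.Adj u v ↔
    v = u + (1, 0) ∨ v = u + (0, 1) ∨ v = u + (-1, 0) ∨ v = u + (0, -1) := by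
  refine ⟨isUnit_of_adj, ?_⟩
  rintro (rfl | rfl | rfl | rfl) <;> simp [Z2]

lemma odd_lb {e : Sym2 (ℤ × ℤ)} (he : e ∈ Z2.edgeSet) : ((lb e).1 + (lb e).2) % 2 = 1 := by
  induction e using Sym2.ind with
  | _ u v =>
    rw [lb_mk]
    have h := isUnit_of_adj he
    simp only [Prod.ext_iff, Prod.fst_add, Prod.snd_add] at h ⊢
    omega

lemma lb_injOn : Set.InjOn lb Z2.edgeSet := by
  intro e he e' he' h
  induction e using Sym2.ind with
  | _ u v =>
    induction e' using Sym2.ind with
    | _ u' v' =>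
      rw [lb_mk, lb_mk] at h
      have h1 := isUnit_of_adj he
      have h2 := isUnit_of_adj he'
      rw [Sym2.eq_iff]
      simp only [Prod.ext_iff, Prod.fst_add, Prod.snd_add] at h h1 h2 ⊢
      omega

/-- The edge with label `l` (for `l` with odd coordinate sum). -/
def el (l : ℤ × ℤ) : Sym2 (ℤ × ℤ) := s((l.1 / 2, l.2 / 2), ((l.1 + 1) / 2, (l.2 + 1) / 2))

lemma el_mem {l : ℤ × ℤ} (h : (l.1 + l.2) % 2 = 1) : el l ∈ Z2.edgeSet := by
  unfold el
  rw [SimpleGraph.mem_edgeSet, adj_iff_isUnit]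
  simp only [Prod.ext_iff, Prod.fst_add, Prod.snd_add]
  omega

lemma lb_el {l : ℤ × ℤ} (h : (l.1 + l.2) % 2 = 1) : lb (el l) = l := by
  unfold el
  rw [lb_mk]
  ext <;> simp only [Prod.fst_add, Prod.snd_add] <;> omega

lemma el_lb {e : Sym2 (ℤ × ℤ)} (he : e ∈ Z2.edgeSet) : el (lb e) = e :=
  lb_injOn (el_mem (odd_lb he)) he (lb_el (odd_lb he))

lemma corner_edge_mem (c : Corner) : c.edge ∈ Z2.edgeSet := by
  obtain ⟨v, q⟩ := c
  unfold Corner.edge
  rw [SimpleGraph.mem_edgeSet, adj_iff_isUnit]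
  rcases q_cases q with rfl | rfl | rfl | rfl
  · simp [dir_zero]
  · simp [dir_one]
  · simp [dir_two]
  · simp [dir_three]

/-- One step of the interface is `pv` of the set of labels. -/
lemma cor_next {w : Set (Sym2 (ℤ × ℤ))} (hw : w ⊆ Z2.edgeSet) {L : Finset (ℤ × ℤ)}
    (hL : (L : Set (ℤ × ℤ)) = lb '' w) (c : Corner) : cor (next w c) = pv L (cor c) := by
  rw [pv_cor, plab_cor]
  have h : lb c.edge ∈ L ↔ c.edge ∈ w := by
    rw [← Finset.mem_coe, hL]
    constructor
    · rintro ⟨e, he, h1⟩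
      rwa [← lb_injOn (hw he) (corner_edge_mem c) h1]
    · intro h; exact ⟨_, h, rfl⟩
  unfold next
  by_cases h1 : c.edge ∈ w
  · rw [if_pos h1, if_pos (h.2 h1)]
  · rw [if_neg h1, if_neg (fun h2 => h1 (h.1 h2))]

lemma cor_next_iter {w : Set (Sym2 (ℤ × ℤ))} (hw : w ⊆ Z2.edgeSet) {L : Finset (ℤ × ℤ)}
    (hL : (L : Set (ℤ × ℤ)) = lb '' w) (c : Corner) (i : ℕ) :
    cor ((next w)^[i] c) = (pv L)^[i] (cor c) := by
  induction i with
  | zero => rfl
  | succ i ih =>
    rw [Function.iterate_succ_apply', Function.iterate_succ_apply', cor_next hw hL, ih]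

/-! ### The exploration path in label form -/

/-- The point of the plane with label `l` (midpoint of the edge `l`) at mesh `δ`. -/
noncomputable def lpt (δ : ℝ) (l : ℤ × ℤ) : ℂ := ⟨δ * l.1 / 2, δ * l.2 / 2⟩

/-- Medial vertices of the exploration from the corner `a` in the configuration `L`. -/
noncomputable def lvert (δ : ℝ) (L : Finset (ℤ × ℤ)) (a : ℤ × ℤ) : ℕ → ℂ
  | 0 => lpt δ (lab a)
  | i + 1 => lpt δ (plab ((pv L)^[i] a))

/-- Number of steps of the exploration from `a` to `b`. -/
noncomputable def llen (L : Finset (ℤ × ℤ)) (a b : ℤ × ℤ) : ℕ := sInf {i | (pv L)^[i] a = b}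

/-- The exploration path from the corner `a` to the corner `b` in the configuration `L` of open
labels. -/
noncomputable def expl (δ : ℝ) (L : Finset (ℤ × ℤ)) (a b : ℤ × ℤ) : Curve :=
  Curve.mk (polyline (lvert δ L a) (llen L a b + 1))

lemma mid_eq (δ : ℝ) (v : ℤ × ℤ) (q : ZMod 4) :
    DDomain.mid δ v q = lpt δ (v + (v + dir q)) := by
  unfold DDomain.mid lpt pt
  apply Complex.ext
  · simp only [Complex.add_re, Complex.div_ofNat_re, Prod.fst_add]
    push_cast
    ring
  · simp only [Complex.add_im, Complex.div_ofNat_im, Prod.snd_add]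
    push_cast
    ring

lemma edges_sub (V : Set (ℤ × ℤ)) : edges V ⊆ Z2.edgeSet := fun _ h => h.1

section domain

variable (X : DDomain)

lemma arc_sub : X.arc ⊆ edges X.V := X.arc_sub.trans X.subE

lemma free_sub : X.free ⊆ edges X.V := X.free_sub.trans X.subE

/-- Labels of the free edges. -/
noncomputable def EL : Finset (ℤ × ℤ) :=
  (X.finite_free.image lb).toFinset

/-- Labels of the wired arc. -/
noncomputable def WL : Finset (ℤ × ℤ) :=
  (X.finite_arc.image lb).toFinset

lemma mem_EL {l : ℤ × ℤ} : l ∈ EL X ↔ ∃ e ∈ X.free, lb e = l := by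
  unfold EL; rw [Set.Finite.mem_toFinset]; rfl

lemma mem_WL {l : ℤ × ℤ} : l ∈ WL X ↔ ∃ e ∈ X.arc, lb e = l := by
  unfold WL; rw [Set.Finite.mem_toFinset]; rfl

lemma coe_WL : (WL X : Set (ℤ × ℤ)) = lb '' X.arc := by
  unfold WL; rw [Set.Finite.coe_toFinset]

lemma coe_EL : (EL X : Set (ℤ × ℤ)) = lb '' X.free := by
  unfold EL; rw [Set.Finite.coe_toFinset]

lemma odd_EL {l : ℤ × ℤ} (h : l ∈ EL X) : (l.1 + l.2) % 2 = 1 := by
  obtain ⟨e, he, rfl⟩ := (mem_EL X).1 h
  exact odd_lb (edges_sub _ (free_sub X he))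

lemma odd_WL {l : ℤ × ℤ} (h : l ∈ WL X) : (l.1 + l.2) % 2 = 1 := by
  obtain ⟨e, he, rfl⟩ := (mem_WL X).1 h
  exact odd_lb (edges_sub _ (arc_sub X he))

lemma disj_EL_WL : Disjoint (EL X) (WL X) := by
  rw [Finset.disjoint_left]
  intro l h1 h2
  obtain ⟨e, he, rfl⟩ := (mem_EL X).1 h1
  obtain ⟨e', he', h⟩ := (mem_WL X).1 h2
  have : e' = e := lb_injOn (edges_sub _ (arc_sub X he')) (edges_sub _ (free_sub X he)) h
  subst this
  exact he.2 he'

/-- The exploration path in label form: for a set `ω` of free edges with set of labels `S`. -/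
theorem explore_eq (δ : ℝ) {ω : Set (Sym2 (ℤ × ℤ))} (hω : ω ⊆ X.free) {S : Finset (ℤ × ℤ)}
    (hS : (S : Set (ℤ × ℤ)) = lb '' ω) :
    X.explore δ ω = expl δ (S ∪ WL X) (cor X.α) (cor X.β) := by
  have hw : ω ∪ X.arc ⊆ Z2.edgeSet :=
    Set.union_subset (hω.trans ((free_sub X).trans (edges_sub _))) ((arc_sub X).trans (edges_sub _))
  have hL : ((S ∪ WL X : Finset (ℤ × ℤ)) : Set (ℤ × ℤ)) = lb '' (ω ∪ X.arc) := by
    rw [Finset.coe_union, coe_WL, hS, Set.image_union]
  have hc : ∀ i, cor (X.corner ω i) = (pv (S ∪ WL X))^[i] (cor X.α) := fun i =>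
    cor_next_iter hw hL X.α i
  have hlen : X.len ω = llen (S ∪ WL X) (cor X.α) (cor X.β) := by
    unfold DDomain.len llen
    congr 1
    ext i
    simp only [Set.mem_ofPred_eq]
    rw [← hc i]
    exact cor_injective.eq_iff.symm
  have hv : X.vertex δ ω = lvert δ (S ∪ WL X) (cor X.α) := by
    funext i
    cases i with
    | zero =>
      change DDomain.mid δ X.α.1 (X.α.2 + 1) = lpt δ (lab (cor X.α))
      rw [mid_eq]
      exact congrArg _ (lab_cor X.α.1 X.α.2).symm
    | succ i =>
      change DDomain.mid δ (X.corner ω i).1 (X.corner ω i).2 = lpt δ (plab _)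
      rw [mid_eq, ← hc i, plab_cor]
      rfl
  unfold DDomain.explore expl
  rw [hlen, hv]

/-- **Law of the exploration path** in terms of a uniformly random set of free labels. -/
theorem law_apply (δ : ℝ) {S : Set Curve} (hS : MeasurableSet S) :
    ((X.law δ : Measure Curve) S).toReal =
      Pr (EL X) (fun ω => expl δ (ω ∪ WL X) (cor X.α) (cor X.β) ∈ S) := by
  classical
  have hf := X.finite_free
  have h1 : (X.law δ : Measure Curve) S =
      (((hf.toFinset.powerset).filter
        (fun s : Finset (Sym2 (ℤ × ℤ)) => X.explore δ (s : Set (Sym2 (ℤ × ℤ))) ∈ S)).card : ENNReal) /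
        ((hf.toFinset.powerset).card : ENNReal) := by
    change ((halfPMF X.free hf).map (X.explore δ)).toMeasure S = _
    rw [PMF.toMeasure_apply_eq_toOuterMeasure_apply _ hS, PMF.toOuterMeasure_map_apply]
    unfold halfPMF
    rw [PMF.toOuterMeasure_map_apply]
    refine (PMF.toOuterMeasure_uniformOfFinset_apply _ _).trans ?_
    have hfc : (hf.toFinset.powerset.filter (fun x : Finset (Sym2 (ℤ × ℤ)) =>
        x ∈ ((fun s : Finset (Sym2 (ℤ × ℤ)) => (s : Set (Sym2 (ℤ × ℤ)))) ⁻¹' (X.explore δ ⁻¹' S)))) =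
        hf.toFinset.powerset.filter
          (fun s : Finset (Sym2 (ℤ × ℤ)) => X.explore δ (s : Set (Sym2 (ℤ × ℤ))) ∈ S) := by
      ext x
      simp only [Finset.mem_filter, Set.mem_preimage]
    rw [← hfc]
  have hlf : Set.InjOn lb X.free := lb_injOn.mono ((free_sub X).trans (edges_sub _))
  have hEL : EL X = hf.toFinset.image lb := by
    ext l
    rw [mem_EL, Finset.mem_image]
    simp
  have h2 : ((hf.toFinset.powerset).filter
      (fun s : Finset (Sym2 (ℤ × ℤ)) => X.explore δ (s : Set (Sym2 (ℤ × ℤ))) ∈ S)).card =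
      ((EL X).powerset.filter
        (fun ω => expl δ (ω ∪ WL X) (cor X.α) (cor X.β) ∈ S)).card := by
    refine Finset.card_nbij (fun s => s.image lb) ?_ ?_ ?_
    · intro s hs
      rw [Finset.mem_coe, Finset.mem_filter, Finset.mem_powerset] at hs
      rw [Finset.mem_coe, Finset.mem_filter, Finset.mem_powerset, hEL]
      refine ⟨Finset.image_subset_image hs.1, ?_⟩
      rw [← explore_eq X δ (ω := (s : Set (Sym2 (ℤ × ℤ)))) (fun e he => by
        simpa using hs.1 he) (by rw [Finset.coe_image])]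
      exact hs.2
    · intro s hs t ht hst
      rw [Finset.mem_coe, Finset.mem_filter, Finset.mem_powerset] at hs ht
      have hs' : (s : Set (Sym2 (ℤ × ℤ))) ⊆ X.free := fun e he => by simpa using hs.1 he
      have ht' : (t : Set (Sym2 (ℤ × ℤ))) ⊆ X.free := fun e he => by simpa using ht.1 he
      rw [← Finset.coe_inj]
      refine (hlf.image_eq_image_iff hs' ht').1 ?_
      rw [← Finset.coe_image, ← Finset.coe_image]
      exact congrArg _ hst
    · intro ω hω
      rw [Finset.mem_coe, Finset.mem_filter, Finset.mem_powerset] at hω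
      have h3 : (ω.image el).image lb = ω := by
        rw [Finset.image_image]
        conv_rhs => rw [← Finset.image_id (s := ω)]
        refine Finset.image_congr ?_
        intro l hl
        exact lb_el (odd_EL X (hω.1 hl))
      have h4 : ∀ e ∈ ω.image el, e ∈ X.free := by
        intro e he
        obtain ⟨l, hl, rfl⟩ := Finset.mem_image.1 he
        obtain ⟨e', he', rfl⟩ := (mem_EL X).1 (hω.1 hl)
        rw [el_lb (edges_sub _ (free_sub X he'))]
        exact he'
      refine ⟨ω.image el, ?_, h3⟩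
      rw [Finset.mem_coe, Finset.mem_filter, Finset.mem_powerset]
      refine ⟨fun e he => by simpa using h4 e he, ?_⟩
      rw [explore_eq X δ (ω := ((ω.image el : Finset _) : Set (Sym2 (ℤ × ℤ)))) (S := ω)
        (fun e he => h4 e (by simpa using he)) (by rw [← Finset.coe_image, h3])]
      exact hω.2
  have h5 : hf.toFinset.card = (EL X).card := by
    rw [hEL, Finset.card_image_of_injOn]
    intro e he e' he' h
    exact hlf (by simpa using he) (by simpa using he') h
  rw [h1, h2, Finset.card_powerset, h5, ENNReal.toReal_div, ENNReal.toReal_natCast]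
  push_cast
  rw [Pool.Agent.H75.Perc.Pr_eq]
  simp

/-- The exploration path as a function of the configuration of the whole lattice. -/
noncomputable def gam (δ : ℝ) (ω : Pool.Agent.H65.Perc.PConf) : Curve :=
  expl δ (Pool.Agent.H63.Perc.tr (EL X) Pool.Agent.H75.Perc.phi ω ∪ WL X)
    (cor X.α) (cor X.β)

lemma measurable_gam (δ : ℝ) : Measurable (gam X δ) := by
  classical
  intro S _
  exact Pool.Agent.H63.Perc.measurable_tr
    (Pool.Agent.H75.Perc.phi_inj fun e he => odd_EL X he)
    (fun ω => expl δ (ω ∪ WL X) (cor X.α) (cor X.β) ∈ S)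

/-- **Law of the exploration path** = image of the product measure on the edges of `ℤ²`. -/
theorem law_eq_map (δ : ℝ) : (X.law δ : Measure Curve) =
    Pool.Agent.H65.Perc.planeMeasure.map (gam X δ) := by
  classical
  have : IsProbabilityMeasure Pool.Agent.H65.Perc.planeMeasure := by
    unfold Pool.Agent.H65.Perc.planeMeasure; infer_instance
  ext S hS
  rw [Measure.map_apply (measurable_gam X δ) hS]
  rw [← ENNReal.toReal_eq_toReal_iff' (measure_ne_top _ _) (measure_ne_top _ _), law_apply X δ hS]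
  exact (Pool.Agent.H63.Perc.coins_tr
    (Pool.Agent.H75.Perc.phi_inj fun e he => odd_EL X he)
    (fun ω => expl δ (ω ∪ WL X) (cor X.α) (cor X.β) ∈ S)).symm

end domain

end Pool.Agent.H69.Q1
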